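import Mathlib
import Pool.Agent.Y214.HB.Stm
import Pool.Agent.TH888.B1.Div
import Pool.Agent.H323R2.NT2

/-!
Primes modulo which an irreducible polynomial has no root: the sum of the reciprocals diverges.
-/

set_option autoImplicit false

namespace Pool.Agent.Y972.HB

open Finset Filter Topology Polynomial Pool.Agent.Y214.HB

/-- a nonnegative bounded sequence on the primes whose mean value is at least one half eventually -/
theorem support_diverges' (a : ℕ → ℝ) (C : ℝ) (ha : ∀ p, 0 ≤ a p) (hC : ∀ p : ℕ, p.Prime → a p ≤ C)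
    (hlim : ∃ N₀ : ℕ, ∀ N ≥ N₀, (Nat.primeCounting N : ℝ) / 2 ≤
      ∑ p ∈ (range (N + 1)).filter Nat.Prime, a p) :
    ¬ Summable (fun n : ℕ => {p : ℕ | p.Prime ∧ a p ≠ 0}.indicator (fun n : ℕ => (1 : ℝ) / n) n) := by
  classical
  intro hsum
  have hC0 : 0 ≤ C := (ha 2).trans (hC 2 Nat.prime_two)
  set T := ∑' n : ℕ, {p : ℕ | p.Prime ∧ a p ≠ 0}.indicator (fun n : ℕ => (1 : ℝ) / n) n with hT
  set c : ℕ → ℝ := fun n => if n.Prime then a n - 1 / 2 else 0 with hc
  have hc0 : c 0 = 0 := by simp only [hc]; rw [if_neg Nat.not_prime_zero]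
  have hD : ∀ N : ℕ, ∑ i ∈ range (N + 1), c i =
      (∑ p ∈ (range (N + 1)).filter Nat.Prime, a p) - (Nat.primeCounting N : ℝ) / 2 := by
    intro N
    simp only [hc]
    rw [← sum_filter, sum_sub_distrib, sum_const, nsmul_eq_mul]
    congr 1
    rw [Nat.primeCounting, Nat.primeCounting', Nat.count_eq_card_filter_range]
    ring
  -- the partial sums are eventually nonnegative
  obtain ⟨N₀, hN₀⟩ : ∃ N₀ : ℕ, ∀ N ≥ N₀, 0 ≤ ∑ i ∈ range (N + 1), c i := by
    obtain ⟨N₁, hN₁⟩ := hlim
    refine ⟨N₁, fun N hN => ?_⟩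
    have h2 := hN₁ N hN
    rw [hD]
    linarith
  set K := ∑ n ∈ range (N₀ + 1), |(∑ i ∈ range (n + 1), c i)| *
    |1 / (n : ℝ) - 1 / ((n + 1 : ℕ) : ℝ)| with hK
  have hw : ∀ n : ℕ, 1 ≤ n → (0 : ℝ) ≤ 1 / (n : ℝ) - 1 / ((n + 1 : ℕ) : ℝ) := by
    intro n hn
    have hn' : (0 : ℝ) < n := by exact_mod_cast hn
    rw [sub_nonneg]
    apply one_div_le_one_div_of_le hn'
    push_cast; linarith
  have hlow : ∀ N ≥ N₀, -K ≤ ∑ n ∈ range (N + 1), c n * (1 / (n : ℝ)) := by
    intro N hN
    rw [Pool.Agent.TH888.B1.abel c hc0 N]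
    have h1 : 0 ≤ (∑ i ∈ range (N + 1), c i) * (1 / ((N + 1 : ℕ) : ℝ)) :=
      mul_nonneg (hN₀ N hN) (by positivity)
    have h2 : -K ≤ ∑ n ∈ range (N + 1), (∑ i ∈ range (n + 1), c i) *
        (1 / (n : ℝ) - 1 / ((n + 1 : ℕ) : ℝ)) := by
      rw [← sum_range_add_sum_Ico _ (show N₀ + 1 ≤ N + 1 by omega)]
      have h3 : -K ≤ ∑ n ∈ range (N₀ + 1), (∑ i ∈ range (n + 1), c i) *
          (1 / (n : ℝ) - 1 / ((n + 1 : ℕ) : ℝ)) := by
        rw [hK, ← sum_neg_distrib]
        apply sum_le_sum
        intro n _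
        rw [← abs_mul]
        exact neg_abs_le _
      have h4 : 0 ≤ ∑ n ∈ Ico (N₀ + 1) (N + 1), (∑ i ∈ range (n + 1), c i) *
          (1 / (n : ℝ) - 1 / ((n + 1 : ℕ) : ℝ)) := by
        apply sum_nonneg
        intro n hn
        rw [mem_Ico] at hn
        exact mul_nonneg (hN₀ n (by omega)) (hw n (by omega))
      linarith
    linarith
  -- upper bound for the weighted sum of `a`
  have hup : ∀ N : ℕ, ∑ n ∈ range (N + 1), (if n.Prime then a n else 0) * (1 / (n : ℝ)) ≤ C * T := by
    intro N
    have h1 : ∀ n ∈ range (N + 1), (if n.Prime then a n else 0) * (1 / (n : ℝ)) ≤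
        C * {p : ℕ | p.Prime ∧ a p ≠ 0}.indicator (fun n : ℕ => (1 : ℝ) / n) n := by
      intro n _
      by_cases hn : n.Prime
      · by_cases han : a n = 0
        · rw [if_pos hn, han, zero_mul]
          apply mul_nonneg hC0
          apply Set.indicator_nonneg
          intro _ _; positivity
        · rw [if_pos hn, Set.indicator_of_mem (show n ∈ {p : ℕ | p.Prime ∧ a p ≠ 0} from ⟨hn, han⟩)]
          exact mul_le_mul_of_nonneg_right (hC n hn) (by positivity)
      · rw [if_neg hn, zero_mul]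
        apply mul_nonneg hC0
        apply Set.indicator_nonneg
        intro _ _; positivity
    calc _ ≤ ∑ n ∈ range (N + 1),
          C * {p : ℕ | p.Prime ∧ a p ≠ 0}.indicator (fun n : ℕ => (1 : ℝ) / n) n := sum_le_sum h1
      _ = C * ∑ n ∈ range (N + 1),
          {p : ℕ | p.Prime ∧ a p ≠ 0}.indicator (fun n : ℕ => (1 : ℝ) / n) n := by rw [mul_sum]
      _ ≤ C * T := by
        apply mul_le_mul_of_nonneg_left _ hC0
        apply hsum.sum_le_tsum
        intro n _
        apply Set.indicator_nonneg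
        intro _ _; positivity
  -- the sum over the primes is bounded
  apply not_summable_one_div_on_primes
  have hnn : ∀ n : ℕ, 0 ≤ Set.indicator {p : ℕ | p.Prime} (fun n : ℕ => (1 : ℝ) / n) n := by
    intro n
    apply Set.indicator_nonneg
    intro _ _; positivity
  refine summable_of_sum_range_le (c := 2 * (C * T + K)) hnn ?_
  intro N
  have h1 : ∑ i ∈ range N, Set.indicator {p : ℕ | p.Prime} (fun n : ℕ => (1 : ℝ) / n) i ≤
      ∑ i ∈ range (max N N₀ + 1), Set.indicator {p : ℕ | p.Prime} (fun n : ℕ => (1 : ℝ) / n) i :=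
    sum_le_sum_of_subset_of_nonneg (range_mono (by omega)) (fun i _ _ => hnn i)
  have h2 := hlow (max N N₀) (le_max_right _ _)
  have h3 := hup (max N N₀)
  have h4 : ∑ n ∈ range (max N N₀ + 1), c n * (1 / (n : ℝ)) =
      (∑ n ∈ range (max N N₀ + 1), (if n.Prime then a n else 0) * (1 / (n : ℝ))) -
      (1 / 2) * ∑ i ∈ range (max N N₀ + 1),
        Set.indicator {p : ℕ | p.Prime} (fun n : ℕ => (1 : ℝ) / n) i := by
    rw [mul_sum, ← sum_sub_distrib]
    apply sum_congr rfl
    intro n _
    simp only [hc]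
    by_cases hn : n.Prime
    · rw [if_pos hn, if_pos hn, Set.indicator_of_mem (show n ∈ {p : ℕ | p.Prime} from hn)]
      ring
    · rw [if_neg hn, if_neg hn, Set.indicator_of_notMem (show n ∉ {p : ℕ | p.Prime} from hn)]
      ring
  rw [h4] at h2
  linarith

/-- the monic polynomial with the roots multiplied by the leading coefficient is irreducible -/
theorem irr_norm (g : ℤ[X]) (hd : 2 ≤ g.natDegree) (hg : Irreducible (g.map (Int.castRingHom ℚ))) :
    Irreducible g.integralNormalization := by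
  have hg0 : g ≠ 0 := by rintro rfl; simp at hd
  have hl : g.leadingCoeff ≠ 0 := leadingCoeff_ne_zero.2 hg0
  have hm : g.integralNormalization.Monic := monic_integralNormalization hg0
  set F : ℚ[X] := g.map (Int.castRingHom ℚ) with hF
  set l : ℚ := (g.leadingCoeff : ℚ) with hl'
  have hlQ : l ≠ 0 := by rw [hl']; exact_mod_cast hl
  set f : ℤ[X] := g.integralNormalization with hf
  have hdf : f.natDegree = g.natDegree := by rw [hf]; exact natDegree_integralNormalization
  -- the identity `f (l X) = l ^ (d - 1) g`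
  have hcomp : (f.map (Int.castRingHom ℚ)).comp (C l * X) = C (l ^ (g.natDegree - 1)) * F := by
    have h1 := integralNormalization_eval₂_leadingCoeff_mul (p := g) (by omega)
      ((C : ℚ →+* ℚ[X]).comp (Int.castRingHom ℚ)) (X : ℚ[X])
    rw [← hf] at h1
    have hcl : ((C : ℚ →+* ℚ[X]).comp (Int.castRingHom ℚ)) g.leadingCoeff = C l := by
      rw [RingHom.comp_apply, eq_intCast, hl']
    rw [hcl] at h1
    rw [comp, eval₂_map, h1, ← C_pow, hF]
    congr 1
  rw [hm.irreducible_iff_irreducible_map_fraction_map (K := ℚ)]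
  have hlinD : (C l * X : ℚ[X]).natDegree = 1 := natDegree_C_mul_X l hlQ
  have hfQ : f.map (algebraMap ℤ ℚ) = f.map (Int.castRingHom ℚ) := rfl
  rw [hfQ]
  have hfm : (f.map (Int.castRingHom ℚ)).Monic := hm.map _
  constructor
  · intro hu
    have h1 := natDegree_eq_zero_of_isUnit hu
    rw [hm.natDegree_map, hdf] at h1
    omega
  · intro A B hAB
    have h1 : A.comp (C l * X) * B.comp (C l * X) = C (l ^ (g.natDegree - 1)) * F := by
      rw [← mul_comp, ← hAB, hcomp]
    have h2 : Irreducible (C (l ^ (g.natDegree - 1)) * F) := by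
      have hu : IsUnit (C (l ^ (g.natDegree - 1)) : ℚ[X]) :=
        isUnit_C.2 (isUnit_iff_ne_zero.2 (pow_ne_zero _ hlQ))
      exact (irreducible_isUnit_mul hu).2 hg
    have hA0 : A ≠ 0 := by
      rintro rfl
      rw [zero_mul] at hAB
      exact hfm.ne_zero hAB
    have hB0 : B ≠ 0 := by
      rintro rfl
      rw [mul_zero] at hAB
      exact hfm.ne_zero hAB
    rcases h2.isUnit_or_isUnit h1.symm with h3 | h3
    · left
      have h4 := natDegree_eq_zero_of_isUnit h3
      rw [natDegree_comp, hlinD, mul_one] at h4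
      rw [natDegree_eq_zero] at h4
      obtain ⟨x, rfl⟩ := h4
      rw [isUnit_C, isUnit_iff_ne_zero]
      rintro rfl
      exact hA0 C_0
    · right
      have h4 := natDegree_eq_zero_of_isUnit h3
      rw [natDegree_comp, hlinD, mul_one] at h4
      rw [natDegree_eq_zero] at h4
      obtain ⟨x, rfl⟩ := h4
      rw [isUnit_C, isUnit_iff_ne_zero]
      rintro rfl
      exact hB0 C_0

theorem t_NR : S_NR := by
  classical
  intro g hd hg
  have hg0 : g ≠ 0 := by rintro rfl; simp at hd
  have hl : g.leadingCoeff ≠ 0 := leadingCoeff_ne_zero.2 hg0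
  obtain ⟨c, hc, Q0, hQ⟩ := Pool.Agent.H323R2.NT.supply g.integralNormalization
    (monic_integralNormalization hg0) (irr_norm g hd hg)
    (by rw [natDegree_integralNormalization]; exact hd) g.leadingCoeff.natAbs
    (Int.natAbs_pos.2 hl)
  set S : Set ℕ := {p : ℕ | p.Prime ∧ ¬ (p : ℤ) ∣ g.leadingCoeff ∧ ∀ w : ℤ, ¬ (p : ℤ) ∣ g.eval w}
    with hS
  have hmem : ∀ Q : ℕ, ∀ q ∈ Pool.Agent.H323R2.Gen.NR g.integralNormalization
      g.leadingCoeff.natAbs Q, q ∈ range (Q + 1) ∧ q.Prime ∧ q ∈ S := by
    intro Q q hq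
    rw [Pool.Agent.H323R2.Gen.NR, mem_filter] at hq
    obtain ⟨h1, h2, h3, h4⟩ := hq
    refine ⟨h1, h2, h2, ?_, ?_⟩
    · intro h5
      apply h3
      rw [ZMod.natCast_eq_zero_iff]
      exact Int.natCast_dvd.1 h5
    · intro w hw
      apply h4 ((g.leadingCoeff : ZMod q) * (w : ZMod q))
      have h5 := integralNormalization_eval₂_leadingCoeff_mul (p := g) (by omega)
        (Int.castRingHom (ZMod q)) (w : ZMod q)
      rw [eval_map]
      simp only [eq_intCast] at h5
      rw [h5]
      have h6 : g.eval₂ (Int.castRingHom (ZMod q)) (w : ZMod q) = ((g.eval w : ℤ) : ZMod q) := by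
        rw [← eval_map, ← eq_intCast (Int.castRingHom (ZMod q)) w, eval_map, eval₂_at_apply]
        simp
      rw [h6, (ZMod.intCast_zmod_eq_zero_iff_dvd _ _).2 hw, mul_zero]
  -- Chebyshev
  have hcheb := Chebyshev.eventually_primeCounting_le (ε := 1) one_pos
  set K : ℝ := Real.log 4 + 1 with hK
  have hK0 : 0 < K := by
    have := Real.log_pos (show (1 : ℝ) < 4 by norm_num)
    rw [hK]; linarith
  have hcheb' := (tendsto_natCast_atTop_atTop (R := ℝ)).eventually hcheb
  obtain ⟨N₁, hN₁⟩ := eventually_atTop.1 hcheb'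
  have hmain := support_diverges' (fun p => if p ∈ S then K / c else 0) (K / c)
    (fun p => by split_ifs <;> positivity)
    (fun p _ => by split_ifs <;> first | exact le_rfl | positivity)
    ⟨max (max N₁ Q0) 2, fun N hN => by
      have h1 := hN₁ N (by omega)
      have h2 := hQ N (by omega)
      have hN2 : (2 : ℝ) ≤ N := by exact_mod_cast (show 2 ≤ N by omega)
      rw [Nat.floor_natCast] at h1
      have h3 : ((Pool.Agent.H323R2.Gen.NR g.integralNormalization
          g.leadingCoeff.natAbs N).card : ℝ) * (K / c) ≤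
          ∑ p ∈ (range (N + 1)).filter Nat.Prime, (if p ∈ S then K / c else 0) := by
        rw [← nsmul_eq_mul, ← sum_const]
        calc _ = ∑ p ∈ Pool.Agent.H323R2.Gen.NR g.integralNormalization
              g.leadingCoeff.natAbs N, (if p ∈ S then K / c else 0) := by
              apply sum_congr rfl
              intro p hp
              rw [if_pos (hmem N p hp).2.2]
          _ ≤ _ := by
              apply sum_le_sum_of_subset_of_nonneg
              · intro p hp
                obtain ⟨h5, h6, -⟩ := hmem N p hp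
                exact mem_filter.2 ⟨h5, h6⟩
              · intro p _ _
                split_ifs <;> positivity
      have h4 : K * N / Real.log N ≤ ((Pool.Agent.H323R2.Gen.NR g.integralNormalization
          g.leadingCoeff.natAbs N).card : ℝ) * (K / c) := by
        calc K * N / Real.log N = (c * N / Real.log N) * (K / c) := by
              field_simp
          _ ≤ _ := mul_le_mul_of_nonneg_right h2 (by positivity)
      have h5 : (0 : ℝ) ≤ (Nat.primeCounting N : ℝ) := Nat.cast_nonneg _
      linarith⟩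
  refine Pool.Agent.TH888.B1.diverges_mono ?_ hmain
  rintro p ⟨hp, hpS⟩
  by_contra hcon
  exact hpS (if_neg hcon)

end Pool.Agent.Y972.HB
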